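import Pool.Agent.P.MP_2bb7c6_lc.C
import Pool.Agent.P.MP_2bb7c6_lc.Fine

/-! At a limit of tall cardinals, omitting one colour gives omitting many colours. -/

set_option autoImplicit false

namespace Pool.Agent.Results.MP_2bb7c6_lc.TallLimit

open Cardinal Pool.Agent.P.MP_2bb7c6_lc

universe u

theorem result (l a : Cardinal.{u}) (ha : ℵ₀ ≤ a) (hal : a < l)
    (hT : ∀ n < l, ∃ k, n < k ∧ k < l ∧ ∀ r < l, Tall k r) (h : Omit l a) :
    ∀ t < l, Few l t a := by
  intro t ht f
  have e : #l.ord.ToType = l := mk_ord_toType l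
  have h0 : ℵ₀ < #l.ord.ToType := e.symm ▸ ha.trans_lt hal
  have : Nonempty a.out := mk_ne_zero_iff.1 ((mk_out a).symm ▸ (aleph0_pos.trans_le ha).ne')
  have hX : ∀ c : l.ord.ToType, #(Set.Iic c) < #l.ord.ToType := fun c => by
    rw [← Set.Iio_insert]
    exact mk_insert_le.trans_lt (add_lt_of_lt h0.le (mk_Iio_lt c (by simp))
      (one_lt_aleph0.trans h0))
  have := main (B := a.out) (C := t.out) hX h0 (e.symm ▸ hT) (by rwa [e, mk_out])
    (fun f => by simpa only [e] using h f) (by rwa [e, mk_out]) f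
  simpa only [e, mk_out] using this

end Pool.Agent.Results.MP_2bb7c6_lc.TallLimit
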